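import Pool.Agent.Work.MP_6d5d4b_gt.FP.Main1

set_option autoImplicit false

/-!
# Ball shadows of an embedded sphere have a common fold point

`A ⊆ ℝ^d` is homeomorphic to `S^k`, `k ≥ 1` (no tameness), `J` is a nonempty set of coordinates with
`|J| ≡ k mod 2` such that for all `i ∈ J` the shadow `π_i(A)` is homeomorphic to the ball `B^k`. Then
there is a point `p ∈ A` such that no `π_i`, `i ∈ J`, is injective on `U ∩ A` for any neighbourhood `U`
of `p`: arbitrarily near `p` there are, for every `i ∈ J`, two points of `A` which differ only in the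
coordinate `i`.

Proof (`Pool/Agent/Work/MP_6d5d4b_gt/FP`). A homeomorphism of `π_i(A)` with a ball in `ℝ^k` and the
coordinate `x_i` embed the sphere in `ℝ^(k+1)`, `F_i : S^k → ℝ^(k+1)`. Let `D_i` be the closure of the
set of the pairs `s ≠ t` with `π_i(s) = π_i(t)`. The class `a(s) - (-1)^k a(t)` of `S^k × S^k`, `a` the
fundamental class, vanishes near every compact set disjoint from `D_i`: off the diagonal it is a
multiple of the pull back of `a` by `(F_i(s) - F_i(t)) / |F_i(s) - F_i(t)|` (the degree of this map on
the pairs `(s, -s)` is odd by Borsuk's theorem), and near the diagonal it has the wrong symmetry under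
the exchange of the factors to be supported there. The cyclic product of these `N = |J|` classes on
`(S^k)^N` is `1 + (-1)^(N+k)` times the fundamental class, so there are `p_1, …, p_N` with
`(p_j, p_(j+1)) ∈ D_(i_j)` for all `j` modulo `N`. The displacements `p_(j+1) - p_j` are multiples of
different `e_i` with sum zero, so all `p_j` are equal.
-/

open Set Topology

namespace Pool.Agent.Results.MP_6d5d4b_gt.CommonFoldPoint

open Pool.Agent.Work.MP_6d5d4b_gt.FP

theorem result : ∀ (k d : ℕ), 1 ≤ k → ∀ A : Set (EuclideanSpace ℝ (Fin d)), IsSph k A →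
    ∀ J : Finset (Fin d), J.Nonempty → Even (J.card + k) → (∀ i ∈ J, IsBall k (proj i '' A)) →
    ∃ p ∈ A, ∀ i ∈ J, ∀ U ∈ 𝓝 p, ¬ InjOn (proj i) (U ∩ A) :=
  fun _ _ hk _ hA _ hJ hp hB => common_fold hk hA hJ hp hB

end Pool.Agent.Results.MP_6d5d4b_gt.CommonFoldPoint
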