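import Pool.Agent.Work.MP_6d5d4b_gt.FP.Main2

set_option autoImplicit false

/-!
# At most `k + 1` shadows are balls if the secant directions are near a subspace

`A ⊆ ℝ^d` is homeomorphic to `S^k`, `k ≥ 1`. Suppose that near every point `p` of `A` the directions of
the secants of `A` have distance at most `L` from a linear subspace `T` with `dim T < (k + 2)(1 - L²)`
(`T`, `L` may depend on `p`). Then at most `k + 1` of the coordinate shadows of `A` are balls. The bound
is attained by the round sphere.

Examples. If `A` is locally contained in a `C¹` submanifold of dimension `k + 1`, take its tangent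
space, `L` small: this covers all `C¹` spheres and for instance all topological (also wild) `k`-spheres
in a `C¹` hypersurface of `ℝ^(k+2)` such as `S^(k+1)`. If `A` is locally the graph of a Lipschitz map
over a `k`-plane with constant `< √(2/k)`, take this plane, `L² < 2/(k+2)`.

Proof. If `k + 2` shadows were balls there would be a common fold point `p` (see `CommonFoldPoint`), so
`k + 2` of the `e_i` are directions of secants near `p`; with the orthogonal projection `P` to `T`:
`(k + 2)(1 - L²) ≤ ∑ |P e_i|² ≤ dim T`.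
-/

namespace Pool.Agent.Results.MP_6d5d4b_gt.FewBallShadows

open Pool.Agent.Work.MP_6d5d4b_gt.FP

theorem result : ∀ (k d : ℕ), 1 ≤ k → ∀ A : Set (EuclideanSpace ℝ (Fin d)), IsSph k A →
    (∀ p ∈ A, ∃ (T : Submodule ℝ (EuclideanSpace ℝ (Fin d))) (L δ : ℝ), 0 < δ ∧ 0 ≤ L ∧
      ((Module.finrank ℝ T : ℝ) < (k + 2) * (1 - L ^ 2)) ∧
      ∀ s ∈ A ∩ Metric.ball p δ, ∀ t ∈ A ∩ Metric.ball p δ,
        Metric.infDist (s - t) (T : Set (EuclideanSpace ℝ (Fin d))) ≤ L * ‖s - t‖) →
    ∀ J : Finset (Fin d), (∀ i ∈ J, IsBall k (proj i '' A)) → J.card ≤ k + 1 :=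
  fun _ _ hk _ hA hT J hB => at_most hk hA (fun p hp => by
    obtain ⟨T, L, δ, h1, h2, h3, h4⟩ := hT p hp
    exact ⟨T, L, δ, h1, h3, h2, h4⟩) J hB

end Pool.Agent.Results.MP_6d5d4b_gt.FewBallShadows
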